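import Pool.Agent.helper62.DP8.Spec

/-!
# Project sq8: module ARC
-/

set_option autoImplicit false

namespace Pool.Agent.helper62.DP8

/-- Periodicity modulo `g`. -/
theorem ARC_mod {V : Type} {G : SimpleGraph V} {g : ℕ} {u : ℕ → V} (hu : Cy G g u) (a : ℕ) : u a = u (a % g) := by
  have h1 : ∀ k r : ℕ, u (r + g * k) = u r := by
    intro k
    induction k with
    | zero => intro r; simp
    | succ m ih =>
      intro r
      have h2 : r + g * (m + 1) = (r + g * m) + g := by ring
      rw [h2, hu.per, ih]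
  have h3 := h1 (a / g) (a % g)
  rw [Nat.mod_add_div] at h3
  exact h3

/-- The vertices of an arc are different. -/
theorem ARC_inj {V : Type} {G : SimpleGraph V} {g : ℕ} {u : ℕ → V} (hg : 3 ≤ g) (hu : Cy G g u) (a b : ℕ) (hab : a < b) (hb : b < a + g) :
    u a ≠ u b := by
  intro h
  rw [ARC_mod hu a, ARC_mod hu b] at h
  have h1 := hu.inj (a % g) (Nat.mod_lt _ (by omega)) (b % g) (Nat.mod_lt _ (by omega)) h
  have h2 : g ∣ b - a := (Nat.modEq_iff_dvd' hab.le).mp h1
  have h3 := Nat.le_of_dvd (by omega) h2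
  omega

/-- The arcs. -/
theorem ARC_arc {V : Type} {G : SimpleGraph V} {g : ℕ} {u : ℕ → V} (hg : 3 ≤ g) (hu : Cy G g u) (i : ℕ) : ∀ k, k < g →
    ∃ p : G.Walk (u i) (u (i + k)), p.IsPath ∧ p.length = k ∧ ∀ z ∈ p.support, ∃ j, i ≤ j ∧ j ≤ i + k ∧ z = u j := by
  intro k
  induction k with
  | zero =>
    intro _
    refine ⟨SimpleGraph.Walk.nil, SimpleGraph.Walk.IsPath.nil, rfl, ?_⟩
    intro z hz
    rw [SimpleGraph.Walk.support_nil, List.mem_singleton] at hz
    exact ⟨i, le_refl _, by omega, hz⟩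
  | succ m ih =>
    intro hm
    obtain ⟨p, hp, hl, hs⟩ := ih (by omega)
    have hadj : G.Adj (u (i + m)) (u (i + (m + 1))) := hu.adj (i + m)
    refine ⟨p.concat hadj, ?_, ?_, ?_⟩
    · apply SimpleGraph.Walk.IsPath.concat hp
      intro hmem
      obtain ⟨j, hj1, hj2, hj3⟩ := hs _ hmem
      exact ARC_inj hg hu j (i + (m + 1)) (by omega) (by omega) hj3.symm
    · rw [SimpleGraph.Walk.length_concat, hl]
    · intro z hz
      rw [SimpleGraph.Walk.support_concat] at hz
      simp only [List.concat_eq_append, List.mem_append, List.mem_singleton] at hz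
      rcases hz with hz | hz
      · obtain ⟨j, hj1, hj2, hj3⟩ := hs z hz
        exact ⟨j, hj1, by omega, hj3⟩
      · exact ⟨i + (m + 1), by omega, le_refl _, hz⟩

theorem ARC (hGP2 : GP2_stmt) : ARC_stmt := by
  intro V G g u hg hG hu i k hk1 hkg q hq hz
  obtain ⟨z, hzq, hzu⟩ := hz
  constructor
  · obtain ⟨p, hp, hl, hs⟩ := ARC_arc hg hu i k hkg
    have hne : p ≠ q := by
      intro h
      rw [← h] at hzq
      obtain ⟨j, _, _, hj⟩ := hs z hzq
      exact hzu j hj
    have := hGP2 V G g hG (u i) (u (i + k)) p q hp hq hne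
    omega
  · obtain ⟨p, hp, hl, hs⟩ := ARC_arc hg hu (i + k) (g - k) (by omega)
    have he : u (i + k + (g - k)) = u i := by
      have h1 : i + k + (g - k) = i + g := by omega
      rw [h1, hu.per]
    have hp' : (p.copy rfl he).reverse.IsPath := by
      rw [SimpleGraph.Walk.isPath_reverse_iff, SimpleGraph.Walk.isPath_copy]
      exact hp
    have hne : (p.copy rfl he).reverse ≠ q := by
      intro h
      rw [← h, SimpleGraph.Walk.support_reverse, SimpleGraph.Walk.support_copy, List.mem_reverse] at hzq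
      obtain ⟨j, _, _, hj⟩ := hs z hzq
      exact hzu j hj
    have := hGP2 V G g hG (u i) (u (i + k)) _ q hp' hq hne
    rw [SimpleGraph.Walk.length_reverse, SimpleGraph.Walk.length_copy, hl] at this
    omega

end Pool.Agent.helper62.DP8
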